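import Pool.Agent.Q205.QCont.Pert

/-!
# The set of quantum limits is generically continuous
-/

set_option autoImplicit false

open Set Filter Topology MeasureTheory
open scoped Real ContDiff

noncomputable section

namespace Pool.Agent.Q205.QCont

open Pool.Agent.Y262.QE Pool.Agent.Y264.QR Pool.Agent.Y363.QE Pool.Agent.Q205.QLim
  Pool.Agent.Q205.QErg

/-- countably many sequences of closed sets -/
theorem generic_closed {X ι : Type*} [TopologicalSpace X] [Countable ι] {S : ι → ℕ → Set X}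
    (hS : ∀ i j, IsClosed (S i j)) :
    ∀ᶠ x in residual X, (∀ i j, x ∈ S i j → x ∈ interior (S i j)) ∧
      ∀ i L, x ∈ closure (⋃ j, ⋃ _ : L ≤ j, interior (S i j)) →
        x ∈ ⋃ j, ⋃ _ : L ≤ j, interior (S i j) := by
  refine Eventually.and ?_ ?_
  · exact eventually_countable_forall.2 fun i => eventually_countable_forall.2 fun j =>
      ev_interior (hS i j)
  · refine eventually_countable_forall.2 fun i => eventually_countable_forall.2 fun L => ?_
    have ho : IsOpen (⋃ j, ⋃ _ : L ≤ j, interior (S i j)) :=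
      isOpen_iUnion fun j => isOpen_iUnion fun _ => isOpen_interior
    filter_upwards [ev_interior ho.isClosed_compl] with x hx hxc
    by_contra hcon
    have h1 := hx hcon
    rw [interior_compl] at h1
    exact h1 hxc

section near

variable {M : Type} [MetricSpace M] [CompactSpace M] [MeasurableSpace M] [BorelSpace M]
  (μ : Measure M) [IsFiniteMeasure μ] {H : Type} [NormedAddCommGroup H] [InnerProductSpace ℝ H]
  (i : H →L[ℝ] Lp ℝ 2 μ) (a : H →L[ℝ] H →L[ℝ] ℝ) (b : C(M, ℝ) → H →L[ℝ] H →L[ℝ] ℝ)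

/-- the masses of the functions `p.1` are `e`-close to the numbers `p.2` for unit eigenvectors of the
eigenvalue with index `j` (up to arbitrarily small errors) -/
def Near (P : List (C(M, ℝ) × ℝ)) (e : ℝ) (j : ℕ) : Set C(M, ℝ) :=
  {φ | ∀ η : ℝ, 0 < η → ∃ v, UE a (b φ) (Ev a (b φ) j) v ∧
    ∀ p ∈ P, |kap μ i p.1 φ v - p.2| < e + η}

theorem exists_bound (P : List (C(M, ℝ) × ℝ)) : ∃ R : ℝ, 0 ≤ R ∧ ∀ p ∈ P, ‖p.1‖ ≤ R := by
  induction P with
  | nil => exact ⟨0, le_rfl, by simp⟩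
  | cons q P ih =>
    obtain ⟨R, hR, h⟩ := ih
    refine ⟨max R ‖q.1‖, hR.trans (le_max_left _ _), ?_⟩
    intro p hp
    rcases List.mem_cons.1 hp with rfl | hp
    · exact le_max_right _ _
    · exact (h p hp).trans (le_max_left _ _)

theorem isClosed_near (hSf : Sf μ i a) (hB : IsB μ i b)
    (hex : ∀ φ, ∃ (e : ℕ → H) (E : ℕ → ℝ), Eg a (b φ) e E) (P : List (C(M, ℝ) × ℝ)) (e : ℝ)
    (j : ℕ) : IsClosed (Near μ i a b P e j) := by
  rw [← isOpen_compl_iff, isOpen_iff_mem_nhds]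
  intro φ hφ
  simp only [Near, mem_compl_iff, mem_ofPred_eq, not_forall, not_exists, not_and] at hφ
  obtain ⟨η, hη, hv⟩ := hφ
  have h3 : 0 < η / 3 := by positivity
  obtain ⟨R, hR, hPR⟩ := exists_bound P
  obtain ⟨δ, hδ, hp⟩ := pertU μ i a b hSf hB hex φ j hR h3
  filter_upwards [Metric.ball_mem_nhds φ hδ] with ψ hψ2 hbad
  replace hψ2 : ‖ψ - φ‖ < δ := by rw [← dist_eq_norm]; exact hψ2
  obtain ⟨w, hw, hwc⟩ := hbad (η / 3) h3
  obtain ⟨v, hv1, hv2⟩ := hp ψ hψ2 w hw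
  obtain ⟨p, hpP, hpc⟩ := hv v hv1
  have h1 := hv2 p.1 (hPR p hpP)
  have h2 := hwc p hpP
  refine hpc ?_
  rw [abs_le] at h1
  rw [abs_lt] at h2 ⊢
  constructor <;> linarith [h1.1, h1.2, h2.1, h2.2]

/-- rational data for a finite set of test functions -/
theorem data (hB : IsB μ i b) {Q : Set C(M, ℝ)} (hQ : Dense Q) (S : Finset C(M, ℝ))
    (t : C(M, ℝ) → ℝ) {ε : ℝ} (hε : 0 < ε) :
    ∃ (P : List (Q × ℚ)) (n : ℕ),
      (∀ (φ : C(M, ℝ)) (j : ℕ) (v : H), UE a (b φ) (Ev a (b φ) j) v →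
        (∀ f ∈ S, |kap μ i f φ v - t f| < 1 / ((n : ℝ) + 1)) →
        ∀ p ∈ P.map (fun q => ((q.1 : C(M, ℝ)), (q.2 : ℝ))),
          |kap μ i p.1 φ v - p.2| < 3 * (1 / ((n : ℝ) + 1))) ∧
      (∀ (φ : C(M, ℝ)) (j : ℕ) (v : H), UE a (b φ) (Ev a (b φ) j) v →
        (∀ p ∈ P.map (fun q => ((q.1 : C(M, ℝ)), (q.2 : ℝ))),
          |kap μ i p.1 φ v - p.2| < 3 * (1 / ((n : ℝ) + 1)) + 1 / ((n : ℝ) + 1)) →
        ∀ f ∈ S, |kap μ i f φ v - t f| < ε) := by
  obtain ⟨n, hn⟩ := exists_nat_one_div_lt (show 0 < ε / 6 by positivity)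
  have hpos : (0 : ℝ) < 1 / ((n : ℝ) + 1) := by positivity
  set e : ℝ := 1 / ((n : ℝ) + 1) with he
  have hF : ∀ f : C(M, ℝ), ∃ q : Q, ‖f - q‖ ≤ e := by
    intro f
    obtain ⟨f', hf', hd⟩ := Metric.mem_closure_iff.1 (hQ f) e hpos
    exact ⟨⟨f', hf'⟩, by rw [← dist_eq_norm]; exact hd.le⟩
  have hC : ∀ f : C(M, ℝ), ∃ r : ℚ, |t f - r| ≤ e := by
    intro f
    obtain ⟨r, hr1, hr2⟩ := exists_rat_btwn (show t f - e < t f by linarith)
    refine ⟨r, ?_⟩
    rw [abs_le]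
    constructor <;> linarith
  choose F hF using hF
  choose c hC using hC
  have hk : ∀ (φ : C(M, ℝ)) (j : ℕ) (v : H), UE a (b φ) (Ev a (b φ) j) v → ∀ f,
      |kap μ i f φ v - kap μ i (F f) φ v| ≤ e := by
    intro φ j v hv f
    have h1 := kap_sub_left μ i b hB f (F f) φ v
    rw [hv.1, mul_one] at h1
    exact h1.trans (hF f)
  refine ⟨S.toList.map fun f => (F f, c f), n, ?_, ?_⟩
  · intro φ j v hv h p hp
    simp only [List.map_map, List.mem_map, Finset.mem_toList, Function.comp] at hp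
    obtain ⟨f, hfS, rfl⟩ := hp
    have h1 := h f hfS
    have h2 := hk φ j v hv f
    have h3 := hC f
    simp only
    rw [abs_lt] at h1 ⊢
    rw [abs_le] at h2 h3
    constructor <;> linarith [h1.1, h1.2, h2.1, h2.2, h3.1, h3.2]
  · intro φ j v hv h f hfS
    have h1 := h ((F f : C(M, ℝ)), (c f : ℝ)) (by
      simp only [List.map_map, List.mem_map, Finset.mem_toList, Function.comp]
      exact ⟨f, hfS, rfl⟩)
    simp only at h1
    have h2 := hk φ j v hv f
    have h3 := hC f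
    rw [abs_lt] at h1 ⊢
    rw [abs_le] at h2 h3
    constructor <;> linarith [h1.1, h1.2, h2.1, h2.2, h3.1, h3.2]

end near

variable {M : Type} [MetricSpace M] [CompactSpace M] [MeasurableSpace M] [BorelSpace M]

/-- There is a normalised eigenfunction `u` of `exp φ · g` with an eigenvalue at least `Λ` such that
`∫ f u² dA` is `ε`-close to `∫ f dν` for all functions `f` in `S`. -/
def CloseTo (D : Data M) (μ : Measure M) (φ : C(M, ℝ)) (ν : Measure M) (S : Finset C(M, ℝ))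
    (ε Λ : ℝ) : Prop :=
  ∃ (lam : ℝ) (u : M → ℝ), Λ ≤ lam ∧ UnitEig D μ φ lam u ∧
    ∀ f ∈ S, |mass μ f φ u - ∫ x, f x ∂ν| < ε

/-- `ν` is a quantum limit of the metric `exp φ · g`: the limit of the measures `u² dA` along a
sequence of normalised eigenfunctions `u` with eigenvalues tending to infinity. -/
def IsQuantumLimit (D : Data M) (μ : Measure M) (φ : C(M, ℝ)) (ν : Measure M) : Prop :=
  ∃ (lam : ℕ → ℝ) (u : ℕ → M → ℝ), (∀ k, UnitEig D μ φ (lam k) (u k)) ∧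
    Tendsto lam atTop atTop ∧
    ∀ f : C(M, ℝ), Tendsto (fun k => mass μ f φ (u k)) atTop (𝓝 (∫ x, f x ∂ν))

theorem close_of_ql {D : Data M} {μ : Measure M} {φ : C(M, ℝ)} {ν : Measure M}
    (h : IsQuantumLimit D μ φ ν) (S : Finset C(M, ℝ)) {ε : ℝ} (hε : 0 < ε) (Λ : ℝ) :
    CloseTo D μ φ ν S ε Λ := by
  obtain ⟨lam, u, hu, hlam, hf⟩ := h
  have h1 : ∀ᶠ k in atTop, ∀ f ∈ S, |mass μ f φ (u k) - ∫ x, f x ∂ν| < ε := by
    rw [Filter.eventually_all_finset]
    intro f _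
    have := (hf f).eventually (Metric.ball_mem_nhds _ hε)
    filter_upwards [this] with k hk
    rw [Real.dist_eq] at hk
    exact hk
  obtain ⟨k, hk1, hk2⟩ := (h1.and (hlam.eventually (eventually_ge_atTop Λ))).exists
  exact ⟨lam k, u k, hk2, hu k, hk1⟩

theorem ql_of_close {D : Data M} {μ : Measure M} {φ : C(M, ℝ)} {ν : Measure M}
    [IsFiniteMeasure ν]
    (hlip : ∀ lam u, UnitEig D μ φ lam u → ∀ f f' : C(M, ℝ),
      |mass μ f φ u - mass μ f' φ u| ≤ ‖f - f'‖)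
    (h : ∀ (S : Finset C(M, ℝ)) (ε Λ : ℝ), 0 < ε → CloseTo D μ φ ν S ε Λ) :
    IsQuantumLimit D μ φ ν := by
  classical
  haveI : SecondCountableTopology C(M, ℝ) := inferInstance
  set d : ℕ → C(M, ℝ) := TopologicalSpace.denseSeq C(M, ℝ) with hd
  have hdd : DenseRange d := TopologicalSpace.denseRange_denseSeq _
  choose lam u hlam hu hc using fun k : ℕ =>
    h ((Finset.range (k + 1)).image d) (1 / ((k : ℝ) + 1)) k (by positivity)
  refine ⟨lam, u, hu, tendsto_atTop_mono hlam tendsto_natCast_atTop_atTop, fun f => ?_⟩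
  have hν : ∀ f f' : C(M, ℝ), |∫ x, f x ∂ν - ∫ x, f' x ∂ν| ≤ ‖f - f'‖ * ν.real univ := by
    intro f f'
    rw [← integral_sub (Pool.Agent.Y155.QR.int_cont ν (by fun_prop))
      (Pool.Agent.Y155.QR.int_cont ν (by fun_prop)), ← Real.norm_eq_abs]
    refine norm_integral_le_of_norm_le_const (Eventually.of_forall fun x => ?_)
    exact (f - f').norm_coe_le_norm x
  rw [Metric.tendsto_atTop]
  intro ε hε
  set V : ℝ := ν.real univ with hV
  have hV0 : 0 ≤ V := measureReal_nonneg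
  obtain ⟨m, hm⟩ := Metric.denseRange_iff.1 hdd f (ε / (3 * (V + 1))) (by positivity)
  rw [dist_eq_norm] at hm
  have h0 : ‖f - d m‖ * (V + 1) < ε / 3 := by
    have h1 : ε / (3 * (V + 1)) * (V + 1) = ε / 3 := by field_simp
    calc ‖f - d m‖ * (V + 1) < ε / (3 * (V + 1)) * (V + 1) :=
          mul_lt_mul_of_pos_right hm (by positivity)
      _ = ε / 3 := h1
  obtain ⟨n, hn⟩ := exists_nat_one_div_lt (show 0 < ε / 3 by positivity)
  refine ⟨max m n, fun k hk => ?_⟩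
  have h1 := hlip _ _ (hu k) f (d m)
  have h2 := hc k (d m) (Finset.mem_image_of_mem _ (Finset.mem_range.2
    (Nat.lt_succ_of_le ((le_max_left _ _).trans hk))))
  have h3 := hν f (d m)
  have h4 : 1 / ((k : ℝ) + 1) ≤ 1 / ((n : ℝ) + 1) := by
    have : (n : ℝ) ≤ k := by exact_mod_cast (le_max_right _ _).trans hk
    exact one_div_le_one_div_of_le (by positivity) (by linarith)
  have h5 : ‖f - d m‖ * (V + 1) = ‖f - d m‖ * V + ‖f - d m‖ := by ring
  have h6 : 0 ≤ ‖f - d m‖ * V := mul_nonneg (norm_nonneg _) hV0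
  have h7 := norm_nonneg (f - d m)
  rw [Real.dist_eq]
  rw [abs_le] at h1 h3
  rw [abs_lt] at h2 ⊢
  constructor <;> linarith [h1.1, h1.2, h2.1, h2.2, h3.1, h3.2]

/-- **Theorem.** Generically the set of quantum limits is continuous. -/
theorem generic_continuity [Nonempty M] (μ : Measure M) (D : Data M) (hD : D.IsSurf μ) {X : Type}
    [TopologicalSpace X] (κ : X → C(M, ℝ)) (hκ : Continuous κ) :
    ∃ G ∈ residual X, ∀ x ∈ G,
      (∀ ν : Measure M, IsFiniteMeasure ν → IsQuantumLimit D μ (κ x) ν →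
        ∀ (S : Finset C(M, ℝ)) (ε Λ : ℝ), 0 < ε → ∀ᶠ x' in 𝓝 x, CloseTo D μ (κ x') ν S ε Λ) ∧
      (∀ ν : Measure M, IsFiniteMeasure ν →
        (∀ (S : Finset C(M, ℝ)) (ε Λ : ℝ), 0 < ε →
          ∃ᶠ x' in 𝓝 x, x' ∈ G ∧ CloseTo D μ (κ x') ν S ε Λ) → IsQuantumLimit D μ (κ x) ν) ∧
      (QUE D μ (κ x) → ∀ (f : C(M, ℝ)) (ε : ℝ), 0 < ε → ∃ Λ : ℝ, ∀ᶠ x' in 𝓝 x, x' ∈ G →
        ∀ (lam : ℝ) (u : M → ℝ), Λ ≤ lam → UnitEig D μ (κ x') lam u →
          |mass μ f (κ x') u - mean μ f (κ x')| < ε) := by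
  obtain ⟨hf, i, a, b, hSf, hB, hex, hto, hfrom, havg, hcE, hmE, htE⟩ := bridge μ D hD
  haveI := hf
  haveI : SecondCountableTopology C(M, ℝ) := inferInstance
  obtain ⟨Q, hQc, hQd⟩ := TopologicalSpace.exists_countable_dense C(M, ℝ)
  haveI : Countable Q := hQc.to_subtype
  set S1 : List (Q × ℚ) × ℕ → ℕ → Set X := fun q j => κ ⁻¹' Near μ i a b
    (q.1.map (fun q => ((q.1 : C(M, ℝ)), (q.2 : ℝ)))) (3 * (1 / ((q.2 : ℝ) + 1))) j with hS1
  set S2 : Q × ℕ → ℕ → Set X := fun q j => κ ⁻¹' Dev μ i a b q.1 (1 / ((q.2 : ℝ) + 1)) j with hS2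
  have hS1c : ∀ q j, IsClosed (S1 q j) := fun q j =>
    (isClosed_near μ i a b hSf hB hex _ _ j).preimage hκ
  have hS2c : ∀ q j, IsClosed (S2 q j) := fun q j =>
    (isClosed_dev μ i a b hSf hB hex _ _ j).preimage hκ
  have hG := (generic_closed hS1c).and (generic_closed hS2c)
  refine ⟨_, hG, ?_⟩
  rintro x ⟨⟨hx1, hx2⟩, ⟨hx3, hx4⟩⟩
  have hidx : ∀ (x' : X) (L j : ℕ), Ev a (b (κ x')) L < Ev a (b (κ x')) j → L ≤ j := by
    intro x' L j h
    by_contra hcon
    push Not at hcon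
    have h2 := hmE (κ x') hcon.le
    simp only at h2
    linarith
  refine ⟨?_, ?_, ?_⟩
  · intro ν hν hql S ε Λ hε
    obtain ⟨P, n, hA, hBk⟩ := data μ i a b hB hQd S (fun f => ∫ x, f x ∂ν) hε
    obtain ⟨lam, u, hlam, hu, hc⟩ := close_of_ql hql S
      (show (0 : ℝ) < 1 / ((n : ℝ) + 1) by positivity) (Λ + 1)
    obtain ⟨j, v, hj, hv, hkap⟩ := hto _ _ _ hu
    have hmem : x ∈ S1 (P, n) j := by
      intro η hη
      refine ⟨v, hv, fun p hp => ?_⟩
      have := hA (κ x) j v hv (fun f hfS => by rw [hkap]; exact hc f hfS) p hp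
      linarith
    have hint := mem_interior_iff_mem_nhds.1 (hx1 _ _ hmem)
    have hEv : ∀ᶠ x' in 𝓝 x, Λ < Ev a (b (κ x')) j :=
      (((hcE j).comp hκ).tendsto x).eventually (lt_mem_nhds (by
        simp only [Function.comp]; rw [hj]; linarith))
    filter_upwards [hint, hEv] with x' hx' hx'E
    obtain ⟨v', hv', hv'c⟩ := hx' (1 / ((n : ℝ) + 1)) (by positivity)
    obtain ⟨u', hu', hkap'⟩ := hfrom _ _ _ hv'
    refine ⟨_, u', hx'E.le, hu', fun f hfS => ?_⟩
    rw [← hkap']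
    exact hBk (κ x') j v' hv' hv'c f hfS
  · intro ν hν hyp
    refine ql_of_close ?_ ?_
    · intro lam u hu f f'
      obtain ⟨j, v, hj, hv, hkap⟩ := hto _ _ _ hu
      have h1 := kap_sub_left μ i b hB f f' (κ x) v
      rw [hv.1, mul_one] at h1
      rw [← hkap, ← hkap]
      exact h1
    · intro S ε Λ hε
      obtain ⟨P, n, hA, hBk⟩ := data μ i a b hB hQd S (fun f => ∫ x, f x ∂ν) hε
      obtain ⟨L, hL⟩ := ((htE (κ x)).eventually (eventually_ge_atTop Λ)).exists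
      have hcl : x ∈ closure (⋃ j, ⋃ _ : L ≤ j, interior (S1 (P, n) j)) := by
        rw [mem_closure_iff_frequently]
        have hEv : ∀ᶠ x' in 𝓝 x, Ev a (b (κ x')) L < Ev a (b (κ x)) L + 1 :=
          (((hcE L).comp hκ).tendsto x).eventually (gt_mem_nhds (by
            simp only [Function.comp]; linarith))
        refine ((hyp S (1 / ((n : ℝ) + 1)) (Ev a (b (κ x)) L + 1)
          (by positivity)).and_eventually hEv).mono ?_
        rintro x' ⟨⟨⟨⟨hg1, -⟩, -⟩, lam, u, hlam, hu, hc⟩, hE⟩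
        obtain ⟨j, v, hj, hv, hkap⟩ := hto _ _ _ hu
        have hLj : L ≤ j := hidx x' L j (by rw [hj]; linarith)
        refine mem_iUnion.2 ⟨j, mem_iUnion.2 ⟨hLj, hg1 _ _ ?_⟩⟩
        intro η hη
        refine ⟨v, hv, fun p hp => ?_⟩
        have := hA (κ x') j v hv (fun f hfS => by rw [hkap]; exact hc f hfS) p hp
        linarith
      obtain ⟨j, hj⟩ := mem_iUnion.1 (hx2 _ _ hcl)
      obtain ⟨hLj, hj⟩ := mem_iUnion.1 hj
      obtain ⟨v', hv', hv'c⟩ := interior_subset hj (1 / ((n : ℝ) + 1)) (by positivity)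
      obtain ⟨u', hu', hkap'⟩ := hfrom _ _ _ hv'
      refine ⟨_, u', hL.trans (hmE (κ x) hLj), hu', fun f hfS => ?_⟩
      rw [← hkap']
      exact hBk (κ x) j v' hv' hv'c f hfS
  · intro hque f ε hε
    obtain ⟨n, hn⟩ := exists_nat_one_div_lt (show 0 < ε / 3 by positivity)
    have hpos : (0 : ℝ) < 1 / ((n : ℝ) + 1) := by positivity
    obtain ⟨f', hf'Q, hff'⟩ : ∃ f' ∈ Q, ‖f - f'‖ ≤ 1 / ((n : ℝ) + 1) := by
      obtain ⟨f', hf', hd⟩ := Metric.mem_closure_iff.1 (hQd f) _ hpos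
      exact ⟨f', hf', by rw [← dist_eq_norm]; exact hd.le⟩
    have hfin : ∀ᶠ j in atTop, x ∉ S2 (⟨f', hf'Q⟩, n) j := by
      by_contra hcon
      rw [not_eventually] at hcon
      simp only [not_not] at hcon
      obtain ⟨s, hs, hsS⟩ := extraction_of_frequently_atTop hcon
      choose v hv hvε using fun k => hsS k (1 / ((n : ℝ) + 1) / 2) (half_pos hpos)
      choose u hu hkap using fun k => hfrom (κ x) (s k) (v k) (hv k)
      have h2 := hque _ u hu ((htE (κ x)).comp hs.tendsto_atTop) f'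
      obtain ⟨K, hK⟩ := Metric.tendsto_atTop.1 h2 (1 / ((n : ℝ) + 1) / 2) (half_pos hpos)
      have h3 := hK K le_rfl
      rw [Real.dist_eq, ← hkap, ← havg] at h3
      have h4 := hvε K
      linarith
    obtain ⟨L, hL⟩ := eventually_atTop.1 hfin
    have hncl : x ∉ closure (⋃ j, ⋃ _ : L ≤ j, interior (S2 (⟨f', hf'Q⟩, n) j)) := by
      intro hcl
      obtain ⟨j, hj⟩ := mem_iUnion.1 (hx4 _ _ hcl)
      obtain ⟨hLj, hj⟩ := mem_iUnion.1 hj
      exact hL j hLj (interior_subset hj)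
    have hW := isClosed_closure.isOpen_compl.mem_nhds hncl
    have hEv : ∀ᶠ x' in 𝓝 x, Ev a (b (κ x')) L < Ev a (b (κ x)) L + 1 :=
      (((hcE L).comp hκ).tendsto x).eventually (gt_mem_nhds (by
        simp only [Function.comp]; linarith))
    refine ⟨Ev a (b (κ x)) L + 1, ?_⟩
    filter_upwards [hW, hEv] with x' hx'W hx'E hx'G lam u hlam hu
    obtain ⟨j, v, hj, hv, hkap⟩ := hto _ _ _ hu
    have hLj : L ≤ j := hidx x' L j (by rw [hj]; linarith)
    have hnot : κ x' ∉ Dev μ i a b f' (1 / ((n : ℝ) + 1)) j := by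
      intro hmem
      exact hx'W (subset_closure (mem_iUnion.2 ⟨j, mem_iUnion.2 ⟨hLj,
        hx'G.2.1 (⟨f', hf'Q⟩, n) j hmem⟩⟩))
    have h4 := not_dev μ i a b hnot hv
    have h5 := dev_approx μ i a b hSf hB hff' hv h4
    rw [← hkap, ← havg]
    linarith

end Pool.Agent.Q205.QCont
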