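import Pool.Agent.Q205.QErg.Surf

/-!
# Eigenvectors of nearby metrics: all test functions at once
-/

set_option autoImplicit false

open Set Filter Topology MeasureTheory
open scoped Real ContDiff

noncomputable section

namespace Pool.Agent.Q205.QCont

open Pool.Agent.Y262.QE Pool.Agent.Y264.QR Pool.Agent.Y363.QE Pool.Agent.Q205.QLim

section kap

variable {M : Type} [MetricSpace M] [CompactSpace M] [MeasurableSpace M] [BorelSpace M]
  (μ : Measure M) [IsFiniteMeasure μ] {H : Type} [NormedAddCommGroup H] [InnerProductSpace ℝ H]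
  (i : H →L[ℝ] Lp ℝ 2 μ) (a : H →L[ℝ] H →L[ℝ] ℝ) (b : C(M, ℝ) → H →L[ℝ] H →L[ℝ] ℝ)


/-- for metrics near `φ` the masses of a unit eigenvector of the `j`-th eigenvalue are close to the
masses of one unit eigenvector for `φ`, for all test functions of norm at most `R` -/
theorem pertU (hSf : Sf μ i a) (hB : IsB μ i b)
    (hex : ∀ φ, ∃ (e : ℕ → H) (E : ℕ → ℝ), Eg a (b φ) e E) (φ : C(M, ℝ)) (j : ℕ)
    {R : ℝ} (hR : 0 ≤ R) {η : ℝ} (hη : 0 < η) :
    ∃ δ : ℝ, 0 < δ ∧ ∀ ψ : C(M, ℝ), ‖ψ - φ‖ < δ → ∀ w, UE a (b ψ) (Ev a (b ψ) j) w →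
      ∃ v, UE a (b φ) (Ev a (b φ) j) v ∧ ∀ h : C(M, ℝ), ‖h‖ ≤ R →
        |kap μ i h φ v - kap μ i h ψ w| ≤ η := by
  obtain ⟨hF, hA, hexp, hk⟩ := facts μ i a b hSf hB
  obtain ⟨l1, l2, l3, l4, l5⟩ := Pool.Agent.Y390.QR.LIP.lip M μ H a b hF hexp
  obtain ⟨e, E, hE⟩ := hex φ
  have hmm : Ev a (b φ) j = E j := Pool.Agent.Y592.QE.mm H a (b φ) (hF _) e E hE j
  set K : ℝ := R + 1 with hK
  have hKpos : 0 < K := by positivity
  -- the parameters
  set T : ℝ := 16 * K / η with hT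
  have hTpos : 0 < T := by positivity
  set η' : ℝ := min (η / (4 * K)) (η / (4 * (K * T))) with hη'
  have hη'pos : 0 < η' := lt_min (by positivity) (by positivity)
  obtain ⟨ε₀, hε₀, hcore⟩ := pert_core (hF φ) hE j hη'pos
  set ε₁ : ℝ := min ε₀ (η / (8 * K)) with hε₁
  have hε₁pos : 0 < ε₁ := lt_min hε₀ (by positivity)
  obtain ⟨δ₁, hδ₁, hcont⟩ := Metric.continuousAt_iff.1 ((l4 j).continuousAt (x := φ)) ε₀ hε₀
  refine ⟨min δ₁ (Real.log (1 + ε₁)), lt_min hδ₁ (Real.log_pos (by linarith)), ?_⟩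
  intro ψ hψ w hw
  set d : ℝ := Real.exp ‖ψ - φ‖ - 1 with hd
  have hd0 : 0 ≤ d := by
    rw [hd]; have := Real.add_one_le_exp ‖ψ - φ‖; have := norm_nonneg (ψ - φ); linarith
  have hdε : d ≤ ε₁ := by
    have h1 : ‖ψ - φ‖ < Real.log (1 + ε₁) := lt_of_lt_of_le hψ (min_le_right _ _)
    have h2 : Real.exp ‖ψ - φ‖ < 1 + ε₁ := by
      rw [← Real.exp_log (by linarith : 0 < 1 + ε₁)]
      exact Real.exp_lt_exp.2 h1
    rw [hd]; linarith
  have hclose : ∀ v, |b ψ v v - b φ v v| ≤ d * b φ v v := by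
    intro v
    have h1 := hexp ψ φ v
    have h2 := hexp φ ψ v
    rw [norm_sub_rev] at h2
    have h3 : Real.exp ‖ψ - φ‖ = 1 + d := by rw [hd]; ring
    rw [h3] at h1 h2
    have h4 : 0 ≤ b φ v v := (hF φ).nb v
    have h5 : 0 ≤ b ψ v v := (hF ψ).nb v
    rw [abs_le]
    constructor
    · by_contra hcon
      push_neg at hcon
      have h6 : b ψ v v < b φ v v * (1 - d) := by linarith
      have h7 : (1 + d) * b ψ v v ≤ (1 + d) * (b φ v v * (1 - d)) :=
        mul_le_mul_of_nonneg_left h6.le (by linarith)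
      have h8 : (1 + d) * (b φ v v * (1 - d)) = b φ v v - d ^ 2 * b φ v v := by ring
      by_cases hb0 : b φ v v = 0
      · rw [hb0] at h6; linarith
      · have h9 : 0 < b φ v v := lt_of_le_of_ne h4 (Ne.symm hb0)
        have h10 : (1 + d) * b ψ v v < (1 + d) * (b φ v v * (1 - d)) :=
          mul_lt_mul_of_pos_left h6 (by linarith)
        nlinarith [sq_nonneg d]
    · linarith
  have hEv : |Ev a (b ψ) j - E j| ≤ ε₀ := by
    have h1 := hcont (x := ψ) (by rw [dist_eq_norm]; exact lt_of_lt_of_le hψ (min_le_left _ _))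
    rw [Real.dist_eq, hmm] at h1
    exact h1.le
  obtain ⟨v, hv, hvw, hww⟩ := hcore (b ψ) d (Ev a (b ψ) j) (hF ψ).sb hd0
    (hdε.trans (min_le_left _ _)) hclose (l1 ψ j) hEv w hw
  refine ⟨v, by rw [hmm]; exact hv, fun h hhR => ?_⟩
  obtain ⟨k, ksym, k1, -⟩ := hk h
  -- first difference
  have hkK : ∀ v, |k φ v v| ≤ K * b φ v v := fun v =>
    ((k1 φ v).2).trans (mul_le_mul_of_nonneg_right (by rw [hK]; linarith) ((hF φ).nb v))
  have hd1 : |kap μ i h φ v - kap μ i h φ w| ≤ η / 4 + η / 4 + η / 8 + η / 8 := by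
    rw [← (k1 φ v).1, ← (k1 φ w).1]
    have e1 : k φ v v - k φ w w = k φ (v - w) (v - w) + 2 * k φ (v - w) w := by
      simp only [map_sub, sub_apply]
      rw [ksym φ w v]; ring
    rw [e1]
    have h1 := hkK (v - w)
    have h2 := cross2 (ksym φ) (hF φ).sb hkK hTpos (v - w) w
    have h3 : K * b φ (v - w) (v - w) ≤ η / 4 := by
      calc K * b φ (v - w) (v - w) ≤ K * (η / (4 * K)) :=
            mul_le_mul_of_nonneg_left (hvw.trans (min_le_left _ _)) hKpos.le
        _ = η / 4 := by field_simp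
    have h4 : K * (T * b φ (v - w) (v - w)) ≤ η / 4 := by
      calc K * (T * b φ (v - w) (v - w)) ≤ K * (T * (η / (4 * (K * T)))) := by
            refine mul_le_mul_of_nonneg_left ?_ hKpos.le
            exact mul_le_mul_of_nonneg_left (hvw.trans (min_le_right _ _)) hTpos.le
        _ = η / 4 := by field_simp
    have h5 : K * (b φ w w / T) ≤ η / 8 := by
      calc K * (b φ w w / T) ≤ K * (2 / T) := by
            refine mul_le_mul_of_nonneg_left ?_ hKpos.le
            exact div_le_div_of_nonneg_right hww hTpos.le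
        _ = η / 8 := by rw [hT]; field_simp; norm_num
    calc |k φ (v - w) (v - w) + 2 * k φ (v - w) w|
        ≤ |k φ (v - w) (v - w)| + |2 * k φ (v - w) w| := abs_add_le _ _
      _ = |k φ (v - w) (v - w)| + 2 * |k φ (v - w) w| := by rw [abs_mul, abs_two]
      _ ≤ _ := by
        have h6 : K * (T * b φ (v - w) (v - w) + b φ w w / T) =
          K * (T * b φ (v - w) (v - w)) + K * (b φ w w / T) := by ring
        rw [h6] at h2
        linarith
  have hd2 : |kap μ i h ψ w - kap μ i h φ w| ≤ η / 4 := by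
    refine (kap_sub_right μ i b hB h φ ψ w).trans ?_
    rw [← hd]
    have h1 : d * b φ w w ≤ η / (8 * K) * 2 :=
      mul_le_mul (hdε.trans (min_le_right _ _)) hww ((hF φ).nb w) (by positivity)
    calc ‖h‖ * (d * b φ w w) ≤ K * (η / (8 * K) * 2) :=
          mul_le_mul (by rw [hK]; linarith) h1 (mul_nonneg hd0 ((hF φ).nb w)) hKpos.le
      _ = η / 4 := by field_simp; norm_num
  have e3 : kap μ i h φ v - kap μ i h ψ w = (kap μ i h φ v - kap μ i h φ w) -
    (kap μ i h ψ w - kap μ i h φ w) := by ring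
  rw [e3]
  refine (abs_sub _ _).trans ?_
  linarith

end kap

end Pool.Agent.Q205.QCont
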